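import Mathlib
import Pool.Agent.H84.FanC

namespace Pool.Agent.Results.MP_56c207_gt.No

open Pool.Agent.H84.Fan

theorem result : ∃ (X : Set unitInterval) (F G : Type) (_ : MetricSpace F) (_ : MetricSpace G)
    (s : F) (t : G), X.Nonempty ∧
    (IsFan s ∧ Smooth s ∧ EndHom F ∧ EPG s X) ∧ (IsFan t ∧ Smooth t ∧ EndHom G ∧ EPG t X) ∧
    IsEmpty (F ≃ₜ G) :=
  ⟨X3, FF cF, FF cG, inferInstance, inferInstance, top cF, top cG, ⟨0, Or.inl rfl⟩,
    ⟨isFan, smooth, endHom, epgF⟩, ⟨isFan, smooth, endHom, epgG⟩, nonhomeo⟩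

end Pool.Agent.Results.MP_56c207_gt.No
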